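import Pool.Agent.ABCP.Stmts
import Pool.Agent.Helper54_ABC3.Str

/-!
# Squad ABCP: the structure of the cap over a subspace (STR); adapted from `Helper54_ABC3/Str`
-/

set_option autoImplicit false
set_option linter.unusedSectionVars false

namespace Pool.Agent.ABCP.H86

open Matrix
open Pool.Agent.ABC3 (St sdeg xc mu mu_def xc_comm xc_sq mu_comm mu_deg HasDeg HomV kr KRSStmt)
open Pool.Agent.ABC3.H54 (hasDeg_mul hasDeg_one hasDeg_zero homV_mulVec kr_add_right kr_zero_left
  kr_zero_right kr_sum_right)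

section basic

variable {p : ℕ} {K B : Type} [Field K] [Fintype B] [DecidableEq B]

/-- the columns in the low degrees vanish -/
theorem col_zero {Q : Type} [AddCommGroup Q] [Module K Q] {S : Sys p K Q B} {e : Matrix B B K}
    {t : ℤ} (he : e * e = e) (hd : HasDeg S.deg 0 e) (hL : LowA S e t) {s' : B}
    (hs : 2 * S.deg s' < t) (s : B) : e s s' = 0 := by
  have h1 : HomV S.deg (S.deg s') (e.mulVec (Pi.single s' 1)) := by
    apply homV_mulVec hd
    intro j hj
    by_cases h : j = s'
    · rw [h]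
    · exact absurd (Pi.single_eq_of_ne h _) hj
  have h2 : e.mulVec (e.mulVec (Pi.single s' 1)) = e.mulVec (Pi.single s' 1) := by
    rw [Matrix.mulVec_mulVec, he]
  have h3 := hL (S.deg s') hs _ h1 h2
  have h4 := congrFun h3 s
  rw [Matrix.mulVec_single_one] at h4
  exact h4

end basic

section krsec

variable {K : Type} [Field K] {ι ι₁ ι₂ : Type}

theorem kr_sub_left (σ : ι₁ ⊕ ι₂ ≃ ι) (A A' : Matrix (St ι₁) (St ι₁) K)
    (C : Matrix (St ι₂) (St ι₂) K) : kr σ (A - A') C = kr σ A C - kr σ A' C := by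
  ext s s'
  simp only [kr, Matrix.sub_apply, sub_mul]

end krsec

theorem str (hCPX : CPXStmt) (hTRK : TRKStmt) (hQUO : QUOStmt) (hTRC : TRCStmt)
    (hKRS : KRSStmt) : STRStmt := by
  classical
  intro p hp K Q _ _ _ _ _ ι _ _ ev hev hGB e he P hP0 hP1 D hD
  -- the two parts
  let pr : ι → Prop := fun c => P ≤ LinearMap.ker (ev c)
  let X := {c : ι // pr c}
  let Y := {c : ι // ¬ pr c}
  let σ : X ⊕ Y ≃ ι := Equiv.sumCompl pr
  have hσl : ∀ i : X, σ (Sum.inl i) = i.1 := fun i => rfl
  have hσr : ∀ i : Y, σ (Sum.inr i) = i.1 := fun i => rfl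
  let evX : X → ((Q ⧸ P) →ₗ[K] K) := fun c => P.liftQ (ev c.1) c.2
  let evX' : X → (Q →ₗ[K] K) := fun c => ev c.1
  let evY : Y → (P →ₗ[K] K) := fun c => (ev c.1).comp P.subtype
  have hX0 : ∀ c, evX c ≠ 0 := by
    intro c h
    apply hev c.1
    ext q
    have h1 := LinearMap.congr_fun h (Submodule.Quotient.mk q)
    simpa [evX] using h1
  have hY0 : ∀ c, evY c ≠ 0 := by
    intro c h
    apply c.2
    intro x hx
    have h1 := LinearMap.congr_fun h ⟨x, hx⟩
    simpa [evY] using h1
  -- dimensions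
  have hfin : Module.finrank K (Q ⧸ P) + Module.finrank K P = Module.finrank K Q :=
    Submodule.finrank_quotient_add_finrank P
  have hPpos : 0 < Module.finrank K P := by
    rw [Module.finrank_pos_iff]
    exact Submodule.nontrivial_iff_ne_bot.2 hP0
  have hQpos : 0 < Module.finrank K (Q ⧸ P) := by
    rw [Module.finrank_pos_iff]
    exact Submodule.Quotient.nontrivial_iff.2 hP1
  have hcard : Fintype.card X + Fintype.card Y = Fintype.card ι := by
    rw [← Fintype.card_sum]
    exact Fintype.card_congr σ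
  have hGX : Good p evX := hGB (Q ⧸ P) X evX hX0 hQpos (by omega)
  have hGY : Good p evY := hGB P Y evY hY0 hPpos (by omega)
  -- the caps
  obtain ⟨eX, heX⟩ := hCPX p K (Q ⧸ P) (St X) (TSys p evX) X evX hX0
  obtain ⟨eY, heY⟩ := hCPX p K P (St Y) (TSys p evY) Y evY hY0
  have heXE : End0 (TSys p evX') eX :=
    (hQUO p K Q X evX' P (fun c => c.2) eX).1 heX.2.1
  have heXT : IsTr (TSys p evX') evX' (1 - eX) :=
    (hQUO p K Q X evX' P (fun c => c.2) (1 - eX)).2 heX.2.2.1
  have hLX := hGX eX heX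
  have hLY := hGY eY heY
  obtain ⟨k1, k2, -, k4, k5, k6⟩ := hKRS K ι X Y σ
  obtain ⟨-, -, t4, -, -, -⟩ := hTRC p K Q (St ι) (TSys p ev)
  -- the action
  have hact : ∀ q : Q, (TSys p ev).act q = kr σ ((TSys p evX').act q) 1 +
      kr σ 1 (mu (fun i : Y => ev i.1 q)) := by
    intro q
    exact k5 (fun c => ev c q)
  have hactP : ∀ (x : Q) (hx : x ∈ P), (TSys p ev).act x =
      kr σ 1 ((TSys p evY).act ⟨x, hx⟩) := by
    intro x hx
    rw [hact x]
    have h0 : (TSys p evX').act x = 0 := by
      have h1 : (fun c : X => evX' c x) = 0 := by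
        funext c
        exact LinearMap.mem_ker.1 (c.2 hx)
      rw [TSys_act, h1, map_zero]
    rw [h0, kr_zero_left, zero_add]
    rfl
  -- `F`
  set F : Matrix (St ι) (St ι) K := kr σ eX 1 with hF
  have hFdeg : HasDeg sdeg 0 F := by
    have := k6 0 0 eX 1 heX.2.1.1 (hasDeg_one _)
    simpa using this
  have hFcom : Com (TSys p ev) ⊤ F := by
    intro q _
    rw [hact q, hF, add_mul, mul_add, k1, k1, k1, k1, heXE.2 q Submodule.mem_top]
    simp only [one_mul, mul_one]
  have hFT : IsTr (TSys p ev) ev (1 - F) := by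
    have h1 := hTRK p K Q ι X Y σ ev (1 - eX) heXT
    rw [kr_sub_left, k2] at h1
    exact h1
  obtain ⟨α, β, ⟨hαd, hαc⟩, ⟨hβd, hβc⟩, hαβ⟩ := he.2.2.2 F ⟨hFdeg, hFcom⟩ hFT
  have hed : HasDeg sdeg 0 e := he.2.1.1
  have hec : Com (TSys p ev) ⊤ e := he.2.1.2
  -- the relative traces over `P`
  obtain ⟨h, hh, hsum⟩ := heY.2.2.1
  let g : ι → Matrix (St ι) (St ι) K := fun c =>
    if hc : pr c then 0 else e * (α * F * kr σ 1 (h ⟨c, hc⟩) * β) * e
  have hg0 : ∀ c, pr c → g c = 0 := fun c hc => dif_pos hc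
  have hg1 : ∀ (c : Y), g c.1 = e * (α * F * kr σ 1 (h c) * β) * e := fun c => dif_neg c.2
  have hkrpow : ∀ (A : Matrix (St Y) (St Y) K) (i : ℕ), kr σ 1 (A ^ i) =
      (kr σ (1 : Matrix (St X) (St X) K) A) ^ i := by
    intro A i
    induction i with
    | zero => rw [pow_zero, pow_zero, k2]
    | succ i ih => rw [pow_succ, pow_succ, ← ih, k1, one_mul]
  refine ⟨g, ?_, ?_⟩
  · intro c
    by_cases hc : pr c
    · rw [hg0 c hc]
      refine ⟨hasDeg_zero _ _, fun x _ => by rw [mul_zero, zero_mul], by rw [mul_zero, zero_mul],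
        fun _ => rfl⟩
    · have hgc := hg1 ⟨c, hc⟩
      rw [show g c = _ from hgc]
      refine ⟨?_, ?_, ?_, fun hc' => absurd hc' hc⟩
      · have h1 : HasDeg sdeg (-((p : ℤ) - 1)) (kr σ 1 (h ⟨c, hc⟩)) := by
          have := k6 0 (-((p : ℤ) - 1)) 1 (h ⟨c, hc⟩) (hasDeg_one _) (hh ⟨c, hc⟩).1
          rw [zero_add] at this
          exact this
        have h2 := hasDeg_mul (hasDeg_mul hed (hasDeg_mul (hasDeg_mul (hasDeg_mul hαd hFdeg) h1)
          hβd)) hed
        have h3 : (0 + (0 + 0 + -((p : ℤ) - 1) + 0) + 0 : ℤ) = -((p : ℤ) - 1) := by ring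
        rw [h3] at h2
        exact h2
      · intro x hx
        obtain ⟨hpP, hpk⟩ := Submodule.mem_inf.1 hx
        have c1 : (TSys p ev).act x * e = e * (TSys p ev).act x := hec x Submodule.mem_top
        have c2 : (TSys p ev).act x * α = α * (TSys p ev).act x := hαc x Submodule.mem_top
        have c3 : (TSys p ev).act x * F = F * (TSys p ev).act x := hFcom x Submodule.mem_top
        have c4 : (TSys p ev).act x * kr σ 1 (h ⟨c, hc⟩) =
            kr σ 1 (h ⟨c, hc⟩) * (TSys p ev).act x := by
          rw [hactP x hpP, k1, k1, (hh ⟨c, hc⟩).2 ⟨x, hpP⟩ (by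
            rw [LinearMap.mem_ker]
            exact LinearMap.mem_ker.1 hpk)]
        have c5 : (TSys p ev).act x * β = β * (TSys p ev).act x := hβc x Submodule.mem_top
        have d1 : Commute ((TSys p ev).act x) e := c1
        have d2 : Commute ((TSys p ev).act x) α := c2
        have d3 : Commute ((TSys p ev).act x) F := c3
        have d4 : Commute ((TSys p ev).act x) (kr σ 1 (h ⟨c, hc⟩)) := c4
        have d5 : Commute ((TSys p ev).act x) β := c5
        exact (d1.mul_right (((d2.mul_right d3).mul_right d4).mul_right d5)).mul_right d1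
      · have hee := he.1
        calc e * (e * (α * F * kr σ 1 (h ⟨c, hc⟩) * β) * e) * e
            = (e * e) * (α * F * kr σ 1 (h ⟨c, hc⟩) * β) * (e * e) := by noncomm_ring
          _ = e * (α * F * kr σ 1 (h ⟨c, hc⟩) * β) * e := by rw [hee]
  · intro q hq v hv hev'
    -- the sum over `ι` is a sum over `Y`
    have hTr0 : ∀ x, Tr (TSys p ev) x 0 = 0 := by
      intro x
      unfold Tr
      refine Finset.sum_eq_zero fun i _ => ?_
      rw [mul_zero, zero_mul]
    have hsumY : ∑ c, (Tr (TSys p ev) (q c) (g c)).mulVec v =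
        ∑ c : Y, (Tr (TSys p ev) (q c.1) (g c.1)).mulVec v := by
      rw [← Equiv.sum_comp σ, Fintype.sum_sum_type]
      have h0 : ∑ i : X, (Tr (TSys p ev) (q (σ (Sum.inl i))) (g (σ (Sum.inl i)))).mulVec v = 0 := by
        refine Finset.sum_eq_zero fun i _ => ?_
        rw [hσl, hg0 i.1 i.2, hTr0, Matrix.zero_mulVec]
      rw [h0, zero_add]
      rfl
    rw [hsumY]
    -- relative traces
    have hqY : ∀ c : Y, q c.1 ∈ P ∧ ev c.1 (q c.1) = 1 := fun c => hq c.1 c.2
    have hs := hsum (fun c => ⟨q c.1, (hqY c).1⟩) (fun c => (hqY c).2)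
    have hTrk : ∀ c : Y, kr σ 1 (Tr (TSys p evY) ⟨q c.1, (hqY c).1⟩ (h c)) =
        Tr (TSys p ev) (q c.1) (kr σ 1 (h c)) := by
      intro c
      unfold Tr
      rw [kr_sum_right]
      refine Finset.sum_congr rfl fun i _ => ?_
      rw [hactP _ (hqY c).1, ← hkrpow, ← hkrpow, k1, k1, one_mul, one_mul]
    -- the vanishing term
    set w : St ι → K := β.mulVec v with hw
    have hwD : HomV sdeg D w := homV_mulVec hβd hv
    have hEw : (kr σ eX eY).mulVec w = 0 := by
      funext s
      rw [Matrix.mulVec, dotProduct]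
      refine Finset.sum_eq_zero fun s' _ => ?_
      by_contra hne
      have hws := right_ne_zero_of_mul hne
      have hkr := left_ne_zero_of_mul hne
      unfold kr at hkr
      have hX := left_ne_zero_of_mul hkr
      have hY := right_ne_zero_of_mul hkr
      have hdeg := hwD s' hws
      rw [k4 s'] at hdeg
      have ht : thr p (Fintype.card X) (Module.finrank K (Q ⧸ P)) +
          thr p (Fintype.card Y) (Module.finrank K P) =
          thr p (Fintype.card ι) (Module.finrank K Q) + (2 * p - 2) := by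
        unfold thr
        have e1 : (Fintype.card X : ℤ) + (Fintype.card Y : ℤ) = (Fintype.card ι : ℤ) := by
          exact_mod_cast hcard
        have e2 : (Module.finrank K (Q ⧸ P) : ℤ) + (Module.finrank K P : ℤ) =
            (Module.finrank K Q : ℤ) := by
          exact_mod_cast hfin
        linear_combination e1 - (3 * (p : ℤ) - 4) * e2
      have hor : 2 * sdeg (fun i => s' (σ (Sum.inl i))) <
            thr p (Fintype.card X) (Module.finrank K (Q ⧸ P)) ∨
          2 * sdeg (fun i => s' (σ (Sum.inr i))) <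
            thr p (Fintype.card Y) (Module.finrank K P) := by
        by_contra hcon
        rw [not_or, not_lt, not_lt] at hcon
        have := hcon.1
        have := hcon.2
        linarith
      rcases hor with h1 | h1
      · exact hX (col_zero heX.1 heX.2.1.1 hLX h1 _)
      · exact hY (col_zero heY.1 heY.2.1.1 hLY h1 _)
    -- `F = kr eX (1 - eY) + kr eX eY`
    have hFsplit : F = F * kr σ 1 (1 - eY) + kr σ eX eY := by
      rw [hF, k1, mul_one, one_mul, ← kr_add_right, sub_add_cancel]
    have hone : (1 - eY : Matrix (St Y) (St Y) K) =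
        ∑ c : Y, Tr (TSys p evY) ⟨q c.1, (hqY c).1⟩ (h c) := hs
    have hkrsum : kr σ 1 (1 - eY) = ∑ c : Y, Tr (TSys p ev) (q c.1) (kr σ 1 (h c)) := by
      rw [hone, kr_sum_right]
      exact Finset.sum_congr rfl fun c _ => hTrk c
    have hv1 : v = α.mulVec (F.mulVec w) := by
      rw [hw, Matrix.mulVec_mulVec, Matrix.mulVec_mulVec, hαβ, hev']
    have hFw : F.mulVec w = (F * kr σ 1 (1 - eY)).mulVec w := by
      conv_lhs => rw [hFsplit]
      rw [Matrix.add_mulVec, hEw, add_zero]
    have hv2 : v = (∑ c : Y, α * F * Tr (TSys p ev) (q c.1) (kr σ 1 (h c)) * β).mulVec v := by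
      conv_lhs => rw [hv1, hFw, hkrsum, hw, Matrix.mulVec_mulVec, Matrix.mulVec_mulVec]
      rw [← Finset.sum_mul, ← Finset.mul_sum]
      congr 1
      noncomm_ring
    have hTr2 : ∀ c : Y, e * (α * F * Tr (TSys p ev) (q c.1) (kr σ 1 (h c)) * β) * e =
        Tr (TSys p ev) (q c.1) (g c.1) := by
      intro c
      have cα : (TSys p ev).act (q c.1) * α = α * (TSys p ev).act (q c.1) :=
        hαc _ Submodule.mem_top
      have cF : (TSys p ev).act (q c.1) * F = F * (TSys p ev).act (q c.1) :=
        hFcom _ Submodule.mem_top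
      have cβ : (TSys p ev).act (q c.1) * β = β * (TSys p ev).act (q c.1) :=
        hβc _ Submodule.mem_top
      have ce : (TSys p ev).act (q c.1) * e = e * (TSys p ev).act (q c.1) :=
        hec _ Submodule.mem_top
      have cαF : (TSys p ev).act (q c.1) * (α * F) = α * F * (TSys p ev).act (q c.1) := by
        have d2 : Commute ((TSys p ev).act (q c.1)) α := cα
        have d3 : Commute ((TSys p ev).act (q c.1)) F := cF
        exact d2.mul_right d3
      rw [t4 (q c.1) (α * F) (kr σ 1 (h c)) β cαF cβ, t4 (q c.1) e _ e ce ce, hg1 c]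
    calc v = e.mulVec v := hev'.symm
      _ = e.mulVec ((∑ c : Y, α * F * Tr (TSys p ev) (q c.1) (kr σ 1 (h c)) * β).mulVec
            (e.mulVec v)) := by
          rw [hev', ← hv2]
          exact hev'.symm
      _ = ∑ c : Y, (Tr (TSys p ev) (q c.1) (g c.1)).mulVec v := by
          rw [Matrix.mulVec_mulVec, Matrix.mulVec_mulVec, Finset.mul_sum,
            Finset.sum_mul, Matrix.sum_mulVec]
          exact Finset.sum_congr rfl fun c _ => by rw [hTr2 c]

end Pool.Agent.ABCP.H86
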